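import Pool.Agent.R247.DP.Hyper
import Pool.Agent.R247.DP.Fuzzy

/-!
# Dense proximality does not pass from the endograph fuzzy extension to the hyperspace

The definitions are in `Pool/Agent/R247/DP/Defs.lean`: `NonemptyCompacts X` with the Hausdorff
distance `dH` and the hyperextension `hyper f`; the normal fuzzy sets `FuzzySet X` (upper
semicontinuous functions `X → [0, 1]` which take the value `1` and have compact support) with the
endograph distance `dE` (Hausdorff distance of the endographs in `X × ℝ` with the maximum metric)
and Zadeh's extension `zadeh f`; `Proximal ρ g y z` says that `liminf ρ (g^n y) (g^n z) = 0` and
`DenseProximal ρ g` that the set of proximal pairs is dense.

The theorem answers the question negatively: there are a (non-complete) metric space `X` and a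
continuous map `f : X → X` such that Zadeh's extension has a dense proximal relation for the
endograph distance, while the hyperextension has no dense proximal relation for the Hausdorff
distance.

Construction. The points are pairs (node, level), and `f` raises the level. The nodes form a tree:
below two roots `a`, `b`, for all nodes `ω`, `η` and all late times `r` there is a generation
`g = (ω, η, r)`, which consists of children of `ω` (role 1) and children of `η` (role 2), indexed
by a height `t` in the Cantor set and an exceptional time. At time `k` a node of generation `g`
shows the code (its role, the first `k - r` digits of its height), but at its exceptional time it
shows the code of a node of the other role whose height is one unit higher. At time `k` two points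
are close exactly if they show the same code. The children of `ω` and `η` in the generation `g`,
with the height as membership, form fuzzy sets close to `ω` and `η` which are proximal for the
endograph distance; finite maxima of such sets are dense. On the other hand if nonempty compact
sets `A`, `B` of descendants of `a` and `b` showed the same codes at infinitely many times, then
below each element of `B` which stays in the generation `g` there would be, in `B`, a descendant of
an exceptional node of `g` with the same parent; this gives an infinite branch of the tree which is
a limit of points of `B`, so `B` would not be compact.
-/

namespace Pool.Agent.Results.MP_24ecc9_an.EndographCounterexample

open Pool.Agent.R247.DP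

theorem result : ∃ (X : Type) (_ : MetricSpace X) (f : X → X) (hf : Continuous f),
    DenseProximal (Y := FuzzySet X) dE (zadeh f hf) ∧
      ¬ DenseProximal (Y := TopologicalSpace.NonemptyCompacts X) dH (hyper f hf) :=
  ⟨Pt, inferInstance, fmap, continuous_fmap, dense_fuzzy, not_dense_hyper⟩

end Pool.Agent.Results.MP_24ecc9_an.EndographCounterexample
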